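import Pool.Agent.H94.TE.Defs

/-!
Row TE_Co (project MP_28250c_TE): expanders are connected; grid minors from clique minors.
PROOFS. `exp_conn`: fix x; A := vertices reachable from x. `nb G A = ∅` and `nb G Aᶜ = ∅`. One of A, Aᶜ has at most half of the vertices, and by `Exp` it is empty; A is not empty, so Aᶜ = ∅. `grid_of_clique`: `B i j := (B (i * n + j) : Set _)`; `i n + j` is injective for `j < n`.
-/

set_option autoImplicit false
open Finset

namespace PPh

variable {v : ℕ} {G : SimpleGraph (Fin v)}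

theorem exp_conn {k : ℕ} (hE : Exp k G) (hv : 0 < v) : G.Connected := by
  classical
  have : Nonempty (Fin v) := ⟨⟨0, hv⟩⟩
  refine SimpleGraph.Connected.mk fun x y => ?_
  set A : Finset (Fin v) := univ.filter fun b => G.Reachable x b with hA
  have hxA : x ∈ A := by simp [hA]
  have h1 : nb G A = ∅ := by
    refine Finset.eq_empty_of_forall_notMem fun b hb => ?_
    obtain ⟨-, hb1, a, ha, hab⟩ := Finset.mem_filter.1 hb
    exact hb1 (Finset.mem_filter.2 ⟨Finset.mem_univ _, (Finset.mem_filter.1 ha).2.trans hab.reachable⟩)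
  have h2 : nb G Aᶜ = ∅ := by
    refine Finset.eq_empty_of_forall_notMem fun b hb => ?_
    obtain ⟨-, hb1, a, ha, hab⟩ := Finset.mem_filter.1 hb
    rw [Finset.mem_compl, not_not] at hb1
    exact Finset.mem_compl.1 ha (Finset.mem_filter.2 ⟨Finset.mem_univ _, (Finset.mem_filter.1 hb1).2.trans hab.symm.reachable⟩)
  have h3 : ¬ 2 * A.card ≤ v := fun h => by
    have := hE A h
    rw [h1, Finset.card_empty, Nat.mul_zero] at this
    have := Finset.card_pos.2 ⟨x, hxA⟩
    omega
  have h4 : A.card + (Aᶜ).card = v := by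
    rw [Finset.card_add_card_compl, Fintype.card_fin]
  have h5 := hE Aᶜ (by omega)
  rw [h2, Finset.card_empty, Nat.mul_zero] at h5
  have h6 : y ∈ A := by
    by_contra hy
    have := Finset.card_pos.2 ⟨y, Finset.mem_compl.2 hy⟩
    omega
  exact (Finset.mem_filter.1 h6).2

private theorem TE_Co_lt {n i j : ℕ} (hi : i < n) (hj : j < n) : i * n + j < n * n := by
  calc i * n + j < i * n + n := by omega
    _ = (i + 1) * n := by ring
    _ ≤ n * n := Nat.mul_le_mul_right n hi

private theorem TE_Co_inj {n i j i' j' : ℕ} (hj : j < n) (hj' : j' < n) (h : i * n + j = i' * n + j') : i = i' ∧ j = j' := by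
  have hn : 0 < n := by omega
  have h1 : i = i' := by
    have e1 : (i * n + j) / n = i := by
      rw [Nat.add_comm, Nat.add_mul_div_right _ _ hn, Nat.div_eq_of_lt hj, Nat.zero_add]
    have e2 : (i' * n + j') / n = i' := by
      rw [Nat.add_comm, Nat.add_mul_div_right _ _ hn, Nat.div_eq_of_lt hj', Nat.zero_add]
    rw [← e1, ← e2, h]
  subst h1
  exact ⟨rfl, by omega⟩

theorem grid_of_clique {n : ℕ} {B : ℕ → Finset (Fin v)} (hB : KMinor G (n * n) B) : GridMinor n G := by
  refine ⟨fun i j => (B (i * n + j) : Set (Fin v)), fun i hi j hj => hB.conn _ (TE_Co_lt hi hj), ?_, ?_, ?_⟩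
  · intro i hi j hj i' hi' j' hj' hne
    have := hB.disj (i * n + j) (TE_Co_lt hi hj) (i' * n + j') (TE_Co_lt hi' hj') fun h =>
      hne (by rw [(TE_Co_inj hj hj' h).1, (TE_Co_inj hj hj' h).2])
    exact Finset.disjoint_coe.2 this
  · intro i hi j hj
    obtain ⟨a, ha, b, hb, hab⟩ := hB.adj (i * n + j) (TE_Co_lt hi (by omega)) (i * n + (j + 1)) (TE_Co_lt hi hj) (by omega)
    exact ⟨a, Finset.mem_coe.2 ha, b, Finset.mem_coe.2 hb, hab⟩
  · intro i hi j hj
    obtain ⟨a, ha, b, hb, hab⟩ := hB.adj (i * n + j) (TE_Co_lt (by omega) hj) ((i + 1) * n + j) (TE_Co_lt hi hj) fun h => by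
      have := (TE_Co_inj hj hj h).1
      omega
    exact ⟨a, Finset.mem_coe.2 ha, b, Finset.mem_coe.2 hb, hab⟩

end PPh
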