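import Mathlib

/-!
Row TE_Nu (project MP_28250c_TE): numerics.
PROOF. n := ⌊v^(1/5)⌋ (`Nat.floor ((v:ℝ)^(1/5:ℝ))`), for large v: n ≥ v^(1/6), and 12 k n⁴ (4 k (log2 v + 1) + 1) ≤ 12 k v^(4/5) (4 k (log v / log 2 + 1) + 1) ≤ v.
-/

set_option autoImplicit false

namespace PPh

theorem te_num (k n₀ : ℕ) : ∃ v₀ : ℕ, 1 ≤ v₀ ∧ ∀ v ≥ v₀, ∃ n : ℕ, n₀ ≤ n ∧ (v : ℝ) ^ (1 / 6 : ℝ) ≤ n ∧ n ≤ v ∧
    12 * (k * (n * n * (n * n * (4 * k * (Nat.log 2 v + 1) + 1)))) ≤ v := by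
  have h1 : ∀ᶠ x : ℝ in Filter.atTop, (n₀ : ℝ) ≤ x ^ (1 / 5 : ℝ) :=
    (tendsto_rpow_atTop (by norm_num)).eventually_ge_atTop _
  have h2 : ∀ᶠ x : ℝ in Filter.atTop, x ^ (1 / 6 : ℝ) + 1 ≤ x ^ (1 / 5 : ℝ) := by
    have a1 : ∀ᶠ x : ℝ in Filter.atTop, (2 : ℝ) ≤ x ^ (1 / 30 : ℝ) :=
      (tendsto_rpow_atTop (by norm_num)).eventually_ge_atTop _
    have a2 : ∀ᶠ x : ℝ in Filter.atTop, (1 : ℝ) ≤ x ^ (1 / 6 : ℝ) :=
      (tendsto_rpow_atTop (by norm_num)).eventually_ge_atTop _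
    filter_upwards [a1, a2, Filter.eventually_gt_atTop 0] with x h1 h2 h3
    have : x ^ (1 / 5 : ℝ) = x ^ (1 / 6 : ℝ) * x ^ (1 / 30 : ℝ) := by
      rw [← Real.rpow_add h3]; norm_num
    nlinarith
  have hl2 : 0 < Real.log 2 := Real.log_pos (by norm_num)
  have h3 : ∀ᶠ x : ℝ in Filter.atTop,
      12 * (k * (4 * k * (Real.log x / Real.log 2 + 1) + 1)) ≤ x ^ (1 / 5 : ℝ) := by
    set A : ℝ := 48 * k ^ 2 / Real.log 2 with hA
    have hA0 : 0 ≤ A := by positivity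
    have a1 := (isLittleO_log_rpow_atTop (show (0 : ℝ) < 1 / 5 by norm_num)).def
      (show (0 : ℝ) < 1 / (2 * (A + 1)) by positivity)
    have a2 : ∀ᶠ x : ℝ in Filter.atTop, 2 * (48 * (k : ℝ) ^ 2 + 12 * k) ≤ x ^ (1 / 5 : ℝ) :=
      (tendsto_rpow_atTop (by norm_num)).eventually_ge_atTop _
    filter_upwards [a1, a2, Filter.eventually_ge_atTop 1] with x b1 b2 b3
    have hx : 0 ≤ x ^ (1 / 5 : ℝ) := by positivity
    rw [Real.norm_of_nonneg (Real.log_nonneg b3), Real.norm_of_nonneg hx] at b1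
    have c1 : A * Real.log x ≤ 1 / 2 * x ^ (1 / 5 : ℝ) := by
      calc A * Real.log x ≤ A * (1 / (2 * (A + 1)) * x ^ (1 / 5 : ℝ)) :=
            mul_le_mul_of_nonneg_left b1 hA0
        _ = (A / (A + 1)) * (1 / 2 * x ^ (1 / 5 : ℝ)) := by field_simp
        _ ≤ 1 * (1 / 2 * x ^ (1 / 5 : ℝ)) := by
            apply mul_le_mul_of_nonneg_right _ (by positivity)
            rw [div_le_one (by positivity)]; linarith
        _ = _ := one_mul _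
    have c2 : 12 * (k * (4 * k * (Real.log x / Real.log 2 + 1) + 1)) =
        A * Real.log x + (48 * (k : ℝ) ^ 2 + 12 * k) := by
      rw [hA]; field_simp; ring
    rw [c2]; linarith
  have h := ((h1.and (h2.and h3)).and (Filter.eventually_ge_atTop 1))
  have hN := tendsto_natCast_atTop_atTop (R := ℝ) |>.eventually h
  obtain ⟨N, hN⟩ := Filter.eventually_atTop.1 hN
  refine ⟨max N 1, le_max_right _ _, fun v hv => ?_⟩
  obtain ⟨⟨g1, g2, g3⟩, g4⟩ := hN v (le_trans (le_max_left _ _) hv)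
  have hv1 : 1 ≤ v := le_trans (le_max_right _ _) hv
  have hv0 : (0 : ℝ) < v := by exact_mod_cast hv1
  set y : ℝ := (v : ℝ) ^ (1 / 5 : ℝ) with hy
  have hy0 : 0 ≤ y := by positivity
  have hy5 : y ^ 5 = v := by
    rw [hy, ← Real.rpow_natCast, ← Real.rpow_mul hv0.le]; norm_num
  have hfl : ((⌊y⌋₊ : ℕ) : ℝ) ≤ y := Nat.floor_le hy0
  have hlt : y < (⌊y⌋₊ : ℝ) + 1 := Nat.lt_floor_add_one y
  have hy1 : 1 ≤ y := Real.one_le_rpow g4 (by norm_num)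
  refine ⟨⌊y⌋₊, Nat.le_floor g1, by linarith, ?_, ?_⟩
  · have : y ≤ v := by
      calc y = y ^ 1 := (pow_one y).symm
        _ ≤ y ^ 5 := pow_le_pow_right₀ hy1 (by norm_num)
        _ = v := hy5
    exact_mod_cast hfl.trans this
  · have hlog : (Nat.log 2 v : ℝ) ≤ Real.log v / Real.log 2 := by
      rw [le_div_iff₀ hl2, ← Real.log_pow]
      apply Real.log_le_log (by positivity)
      have := Nat.pow_log_le_self 2 (show v ≠ 0 by omega)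
      exact_mod_cast this
    have key : (12 : ℝ) * (k * ((⌊y⌋₊ : ℝ) * ⌊y⌋₊ * ((⌊y⌋₊ : ℝ) * ⌊y⌋₊ *
        (4 * k * ((Nat.log 2 v : ℝ) + 1) + 1)))) ≤ v := by
      have e1 : (⌊y⌋₊ : ℝ) ^ 4 ≤ y ^ 4 := pow_le_pow_left₀ (by positivity) hfl 4
      have e2 : (12 : ℝ) * (k * (4 * k * ((Nat.log 2 v : ℝ) + 1) + 1)) ≤ y := by
        refine le_trans ?_ g3
        gcongr
      calc (12 : ℝ) * (k * ((⌊y⌋₊ : ℝ) * ⌊y⌋₊ * ((⌊y⌋₊ : ℝ) * ⌊y⌋₊ *
            (4 * k * ((Nat.log 2 v : ℝ) + 1) + 1))))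
          = (⌊y⌋₊ : ℝ) ^ 4 * (12 * (k * (4 * k * ((Nat.log 2 v : ℝ) + 1) + 1))) := by ring
        _ ≤ y ^ 4 * y := mul_le_mul e1 e2 (by positivity) (by positivity)
        _ = v := by rw [← hy5]; ring
    exact_mod_cast key

end PPh
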