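import Pool.Agent.H94.TE.Alg
import Pool.Agent.H94.TE.Conn
import Pool.Agent.H94.TE.Num
import Pool.Agent.H94.TM.Main

/-!
helper94 (project MP_28250c_TE): Tseitin formulas of bounded degree expanders, from the theorem on grid minors.
-/

set_option autoImplicit false
open Finset

namespace PPh

open ACpFrege

/-- The final statement: Tseitin formulas of expanders of bounded degree. -/
def StatementTE : Prop :=
  ∀ p : ℕ, p.Prime → ∀ S : List (Rule p), (∀ R ∈ S, R.Sound) → ∀ Δ k : ℕ, ∃ v₀ : ℕ, ∀ v ≥ v₀, ∀ d : ℕ,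
    Real.log v ^ (d + 1) ≤ (v : ℝ) ^ (Real.log 2 / (2400 * Real.log (2 * p + 4))) →
    ∀ (G : SimpleGraph (Fin v)) [DecidableRel G.Adj], Exp k G → (∀ w, G.degree w ≤ Δ) →
      (∀ q : ℕ, 2 ≤ q → ∀ σ : Fin v → ZMod q, ((p ^ q.factorization p : ℕ) : ZMod q) ∣ ∑ w, σ w → ∑ w, σ w ≠ 0 →
        ∀ π : List (Fm p), Refutes S d (tsg G q σ) π →
          (2 : ℝ) ^ ((v : ℝ) ^ (Real.log 2 / (2400 * Real.log (2 * p + 4)) / (d + 1))) ≤ psize π) ∧
      (p ≠ 2 → ∀ σ : Fin v → ZMod 2, ∑ w, σ w ≠ 0 →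
        ∀ π : List (Fm p), Refutes S d (tsgb G σ) π →
          (2 : ℝ) ^ ((v : ℝ) ^ (Real.log 2 / (2400 * Real.log (2 * p + 4)) / (d + 1))) ≤ psize π)

theorem te_of (hM : StatementTM) : StatementTE := by
  intro p hp S hS Δ k
  obtain ⟨n₀, hn₀⟩ := hM p hp S hS Δ
  obtain ⟨v₀, hv₀, hnum⟩ := te_num (k + 1) (n₀ + 1)
  refine ⟨v₀, fun v hv d hd G _ hE hΔ => ?_⟩
  obtain ⟨n, h1, h2, h3, h4⟩ := hnum v hv
  have hE' : Exp (k + 1) G := fun A hA => (hE A hA).trans (Nat.mul_le_mul_right _ (Nat.le_succ _))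
  obtain ⟨B, hB⟩ := exp_minor (h := n * n) (Nat.le_add_left 1 k) hE' h4
  have hconn := exp_conn hE' (by omega)
  have hmin := grid_of_clique hB
  have hn1 : (1 : ℝ) ≤ n := by exact_mod_cast (by omega : 1 ≤ n)
  have hv1 : (1 : ℝ) ≤ v := by exact_mod_cast (by omega : 1 ≤ v)
  have hp2 : (2 : ℝ) ≤ p := by exact_mod_cast hp.two_le
  have hc : (0 : ℝ) < Real.log 2 / (400 * Real.log (2 * p + 4)) := by
    have := Real.log_pos (by linarith : (1 : ℝ) < 2 * p + 4)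
    have := Real.log_pos one_lt_two
    positivity
  have hc6 : Real.log 2 / (2400 * Real.log (2 * p + 4)) = (1 / 6) * (Real.log 2 / (400 * Real.log (2 * p + 4))) := by
    rw [show (2400 : ℝ) * Real.log (2 * p + 4) = 6 * (400 * Real.log (2 * p + 4)) by ring]
    rw [div_mul_eq_div_div_swap]
    ring
  have key : ∀ e : ℝ, 0 ≤ e → (v : ℝ) ^ ((1 / 6) * e) ≤ (n : ℝ) ^ e := by
    intro e he
    rw [Real.rpow_mul (by linarith)]
    exact Real.rpow_le_rpow (Real.rpow_nonneg (by linarith) _) h2 he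
  have hlog : Real.log n ^ (d + 1) ≤ (n : ℝ) ^ (Real.log 2 / (400 * Real.log (2 * p + 4))) := by
    calc Real.log n ^ (d + 1) ≤ Real.log v ^ (d + 1) := by
          refine pow_le_pow_left₀ (Real.log_nonneg hn1) (Real.log_le_log (by linarith) (by exact_mod_cast h3)) _
      _ ≤ _ := hd
      _ ≤ _ := by rw [hc6]; exact key _ hc.le
  obtain ⟨ha, hb⟩ := hn₀ n (by omega) d hlog v G hconn hmin hΔ
  have hfin : (2 : ℝ) ^ ((v : ℝ) ^ (Real.log 2 / (2400 * Real.log (2 * p + 4)) / (d + 1))) ≤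
      (2 : ℝ) ^ ((n : ℝ) ^ (Real.log 2 / (400 * Real.log (2 * p + 4)) / (d + 1))) := by
    refine Real.rpow_le_rpow_of_exponent_le one_le_two ?_
    rw [hc6, mul_div_assoc]
    exact key _ (by positivity)
  exact ⟨fun q hq σ hd hσ π hπ => hfin.trans (ha q hq σ hd hσ π hπ), fun h2 σ hσ π hπ => hfin.trans (hb h2 σ hσ π hπ)⟩

end PPh
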