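import Pool.Agent.H94.TE.Defs

/-!
Row TE_St (project MP_28250c_TE): the steps of the construction.
PROOFS. Let `C = rst t A Z B`. `st_card`: `nb G A ⊆ Z ∪ ⋃ B i`, so `Exp` gives `A.card ≤ k (Z.card + t m)` and `2 k Z.card ≤ A.card`, hence `A.card ≤ 2 k t m`. `st_rst`: `C.card ≥ v - A.card - Z.card - t m` with `A.card ≤ 2 k h m`, `Z.card ≤ h m`
(from `2 k Z.card ≤ A.card`), so with `12 k h m ≤ v` and `k ≥ 1` more than half. `st_drop` (a branch set j without neighbour in C goes into A): new `A ∪ B j`, same Z, the branch sets without number j (move the last one to its place: `B' i = if i = j then B t else B i`, `i < t`);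
outer neighbours of `B j` are in A, Z or other branch sets because they are not in C. `st_add` (a set X ⊆ C with few outer neighbours in C goes into A, these neighbours into Z): new `A ∪ X`, `Z ∪ (nb G X ∩ C)`; the outer neighbours of X are not in A (else an element of X ⊆ C would be an outer neighbour of A).
`X.card ≤ 4 k h m` by `Exp` for X: `X.card ≤ k (|nb X ∩ C| + Z.card + t m)`, `2k |nb X ∩ C| ≤ X.card`, so `2 (A ∪ X).card ≤ 12 k h m ≤ v`. `st_new`: a connected `T ⊆ C` with an edge to every branch set is a new branch set (`B' i = if i = t then T else B i`).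
-/

set_option autoImplicit false
open Finset

namespace PPh

variable {v : ℕ} {G : SimpleGraph (Fin v)} {k m t : ℕ} {A Z : Finset (Fin v)} {B : ℕ → Finset (Fin v)}

private theorem TE_St_nb {X : Finset (Fin v)} {b : Fin v} : b ∈ nb G X ↔ b ∉ X ∧ ∃ a ∈ X, G.Adj a b := by
  classical
  unfold nb
  rw [Finset.mem_filter]
  exact ⟨fun h => h.2, fun h => ⟨Finset.mem_univ _, h⟩⟩

private theorem TE_St_rst {b : Fin v} : b ∈ rst t A Z B ↔ b ∉ A ∧ b ∉ Z ∧ ∀ i < t, b ∉ B i := by
  unfold rst
  rw [Finset.mem_sdiff, Finset.mem_union, Finset.mem_union, Finset.mem_biUnion]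
  constructor
  · rintro ⟨_, h⟩
    push Not at h
    exact ⟨h.1.1, h.1.2, fun i hi => h.2 i (Finset.mem_range.2 hi)⟩
  · rintro ⟨h1, h2, h3⟩
    refine ⟨Finset.mem_univ _, ?_⟩
    rintro ((h | h) | ⟨i, hi, h⟩)
    · exact h1 h
    · exact h2 h
    · exact h3 i (Finset.mem_range.1 hi) h

private theorem TE_St_bu (hS : St G k m t A Z B) : ((range t).biUnion B).card ≤ t * m := by
  have h := Finset.card_biUnion_le_card_mul (range t) B m (fun i hi => hS.card i (Finset.mem_range.1 hi))
  rwa [Finset.card_range] at h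

theorem st_card (hk : 1 ≤ k) (hE : Exp k G) (hS : St G k m t A Z B) : A.card ≤ 2 * k * (t * m) := by
  have h1 := hE A hS.cA
  have h2 : nb G A ⊆ Z ∪ (range t).biUnion B := by
    intro b hb
    rw [Finset.mem_union, Finset.mem_biUnion]
    rcases hS.nbA b hb with h | ⟨i, hi, h⟩
    · exact Or.inl h
    · exact Or.inr ⟨i, Finset.mem_range.2 hi, h⟩
  have h3 := (Finset.card_le_card h2).trans (Finset.card_union_le _ _)
  have h4 := TE_St_bu hS
  have h5 : (nb G A).card ≤ Z.card + t * m := by omega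
  have h6 : A.card ≤ k * Z.card + k * (t * m) := by
    rw [← mul_add]
    exact h1.trans (Nat.mul_le_mul_left k h5)
  have h7 := hS.cZ
  rw [mul_assoc] at h7 ⊢
  omega

theorem st_rst {h : ℕ} (hk : 1 ≤ k) (hE : Exp k G) (hS : St G k m t A Z B) (ht : t ≤ h) (hv : 12 * (k * (h * m)) ≤ v) (hv0 : 0 < v) :
    v < 2 * (rst t A Z B).card := by
  have h1 := st_card hk hE hS
  have h2 := TE_St_bu hS
  have h3 : k * (t * m) ≤ k * (h * m) := Nat.mul_le_mul_left k (Nat.mul_le_mul_right m ht)
  have h4 : t * m ≤ k * (t * m) := Nat.le_mul_of_pos_left _ hk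
  have h5 : Z.card ≤ k * Z.card := Nat.le_mul_of_pos_left _ hk
  have h6 := hS.cZ
  rw [mul_assoc] at h1 h6
  have h7 := Finset.le_card_sdiff (A ∪ Z ∪ (range t).biUnion B) (univ : Finset (Fin v))
  rw [Finset.card_univ, Fintype.card_fin] at h7
  have h8 := Finset.card_union_le (A ∪ Z) ((range t).biUnion B)
  have h9 := Finset.card_union_le A Z
  have h10 : v - (A ∪ Z ∪ (range t).biUnion B).card ≤ (rst t A Z B).card := h7
  omega

/-- Case 1. -/
theorem st_drop {h : ℕ} (hk : 1 ≤ k) (hE : Exp k G) (hS : St G k m (t + 1) A Z B) (ht : t + 1 ≤ h) (hv : 12 * (k * (h * m)) ≤ v) {j : ℕ} (hj : j < t + 1)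
    (hn : ∀ a ∈ B j, ∀ b ∈ rst (t + 1) A Z B, ¬ G.Adj a b) :
    ∃ A' Z' B', St G k m t A' Z' B' ∧ A.card < A'.card := by
  obtain ⟨σ, hσ⟩ : ∃ σ : ℕ → ℕ, ∀ i, σ i = if i = j then t else i := ⟨_, fun i => rfl⟩
  have hs1 : ∀ i < t, σ i < t + 1 := by
    intro i hi
    rw [hσ]
    split_ifs <;> omega
  have hs2 : ∀ i < t, ∀ i' < t, i ≠ i' → σ i ≠ σ i' := by
    intro i hi i' hi' hne
    rw [hσ, hσ]
    split_ifs <;> omega
  have hs3 : ∀ i < t, σ i ≠ j := by
    intro i hi
    rw [hσ]
    split_ifs <;> omega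
  have hs4 : ∀ i < t + 1, i ≠ j → ∃ i' < t, σ i' = i := by
    intro i hi hij
    by_cases h1 : i = t
    · exact ⟨j, by omega, by rw [hσ, if_pos rfl, h1]⟩
    · exact ⟨i, by omega, by rw [hσ, if_neg hij]⟩
  have hne : (B j).Nonempty := by
    obtain ⟨⟨x, hx⟩⟩ := (hS.minor.conn j hj).nonempty
    exact ⟨x, hx⟩
  have hcard : (A ∪ B j).card = A.card + (B j).card := Finset.card_union_of_disjoint (hS.dAB j hj)
  have hBm := hS.card j hj
  have hpos := hne.card_pos
  refine ⟨A ∪ B j, Z, fun i => B (σ i), ?_, ?_⟩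
  · refine ⟨⟨?_, ?_, ?_⟩, ?_, ?_, ?_, ?_, ?_, ?_, ?_⟩
    · intro i hi
      exact hS.minor.conn _ (hs1 i hi)
    · intro i hi i' hi' hne'
      exact hS.minor.disj _ (hs1 i hi) _ (hs1 i' hi') (hs2 i hi i' hi' hne')
    · intro i hi i' hi' hne'
      exact hS.minor.adj _ (hs1 i hi) _ (hs1 i' hi') (hs2 i hi i' hi' hne')
    · intro i hi
      exact hS.card _ (hs1 i hi)
    · rw [Finset.disjoint_union_left]
      exact ⟨hS.dAZ, (hS.dZB j hj).symm⟩
    · intro i hi
      rw [Finset.disjoint_union_left]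
      exact ⟨hS.dAB _ (hs1 i hi), hS.minor.disj j hj _ (hs1 i hi) (hs3 i hi).symm⟩
    · intro i hi
      exact hS.dZB _ (hs1 i hi)
    · intro b hb
      rw [TE_St_nb] at hb
      obtain ⟨hb1, a, ha, hab⟩ := hb
      rw [Finset.mem_union, not_or] at hb1
      rw [Finset.mem_union] at ha
      have key : b ∈ Z ∨ ∃ i < t + 1, b ∈ B i := by
        rcases ha with ha | ha
        · exact hS.nbA b (TE_St_nb.2 ⟨hb1.1, a, ha, hab⟩)
        · by_contra hcon
          push Not at hcon
          exact hn a ha b (TE_St_rst.2 ⟨hb1.1, hcon.1, hcon.2⟩) hab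
      rcases key with h1 | ⟨i, hi, h1⟩
      · exact Or.inl h1
      · have hij : i ≠ j := by
          rintro rfl
          exact hb1.2 h1
        obtain ⟨i', hi', h2⟩ := hs4 i hi hij
        exact Or.inr ⟨i', hi', by rw [h2]; exact h1⟩
    · exact hS.cZ.trans (by omega)
    · have h1 := st_card hk hE hS
      have h2 : k * ((t + 1) * m) ≤ k * (h * m) := Nat.mul_le_mul_left k (Nat.mul_le_mul_right m ht)
      have h3 : m ≤ h * m := Nat.le_mul_of_pos_left _ (by omega)
      have h4 : h * m ≤ k * (h * m) := Nat.le_mul_of_pos_left _ hk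
      rw [mul_assoc] at h1
      omega
  · omega

/-- Case 3. -/
theorem st_add {h : ℕ} (hk : 1 ≤ k) (hE : Exp k G) (hS : St G k m t A Z B) (ht : t ≤ h) (hv : 12 * (k * (h * m)) ≤ v) {X : Finset (Fin v)}
    (hX : X ⊆ rst t A Z B) (hX0 : X.Nonempty) (hXv : 2 * X.card ≤ v) (hXn : 2 * k * (nb G X ∩ rst t A Z B).card < X.card) :
    ∃ A' Z', St G k m t A' Z' B ∧ A.card < A'.card := by
  have hXA : Disjoint A X := by
    rw [Finset.disjoint_left]
    intro b hb hb'
    exact (TE_St_rst.1 (hX hb')).1 hb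
  have hcard : (A ∪ X).card = A.card + X.card := Finset.card_union_of_disjoint hXA
  have hpos := hX0.card_pos
  refine ⟨A ∪ X, Z ∪ (nb G X ∩ rst t A Z B), ?_, by omega⟩
  refine ⟨hS.minor, hS.card, ?_, ?_, ?_, ?_, ?_, ?_⟩
  · rw [Finset.disjoint_left]
    intro b hb hb'
    rw [Finset.mem_union] at hb hb'
    rw [Finset.mem_inter] at hb'
    rcases hb' with hb' | ⟨h1, h2⟩
    · rcases hb with hb | hb
      · exact Finset.disjoint_left.1 hS.dAZ hb hb'
      · exact (TE_St_rst.1 (hX hb)).2.1 hb'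
    · rcases hb with hb | hb
      · exact (TE_St_rst.1 h2).1 hb
      · exact (TE_St_nb.1 h1).1 hb
  · intro i hi
    rw [Finset.disjoint_union_left]
    refine ⟨hS.dAB i hi, ?_⟩
    rw [Finset.disjoint_left]
    intro b hb hb'
    exact (TE_St_rst.1 (hX hb)).2.2 i hi hb'
  · intro i hi
    rw [Finset.disjoint_union_left]
    refine ⟨hS.dZB i hi, ?_⟩
    rw [Finset.disjoint_left]
    intro b hb hb'
    exact (TE_St_rst.1 (Finset.mem_inter.1 hb).2).2.2 i hi hb'
  · intro b hb
    rw [TE_St_nb] at hb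
    obtain ⟨hb1, a, ha, hab⟩ := hb
    rw [Finset.mem_union, not_or] at hb1
    rw [Finset.mem_union] at ha
    rcases ha with ha | ha
    · rcases hS.nbA b (TE_St_nb.2 ⟨hb1.1, a, ha, hab⟩) with h1 | h1
      · exact Or.inl (Finset.mem_union_left _ h1)
      · exact Or.inr h1
    · by_cases h2 : b ∈ Z
      · exact Or.inl (Finset.mem_union_left _ h2)
      · by_cases h3 : ∃ i < t, b ∈ B i
        · exact Or.inr h3
        · push Not at h3
          exact Or.inl (Finset.mem_union_right _ (Finset.mem_inter.2 ⟨TE_St_nb.2 ⟨hb1.2, a, ha, hab⟩, TE_St_rst.2 ⟨hb1.1, h2, h3⟩⟩))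
  · have h1 := Finset.card_union_le Z (nb G X ∩ rst t A Z B)
    have h2 : 2 * k * (Z ∪ (nb G X ∩ rst t A Z B)).card ≤ 2 * k * Z.card + 2 * k * (nb G X ∩ rst t A Z B).card := by
      rw [← mul_add]
      exact Nat.mul_le_mul_left _ h1
    have h3 := hS.cZ
    omega
  · have h1 := st_card hk hE hS
    have h2 := hE X hXv
    have h3 : nb G X ⊆ (nb G X ∩ rst t A Z B) ∪ (Z ∪ (range t).biUnion B) := by
      intro b hb
      rw [Finset.mem_union, Finset.mem_union, Finset.mem_biUnion]
      by_cases h4 : b ∈ Z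
      · exact Or.inr (Or.inl h4)
      · by_cases h5 : ∃ i < t, b ∈ B i
        · obtain ⟨i, hi, h6⟩ := h5
          exact Or.inr (Or.inr ⟨i, Finset.mem_range.2 hi, h6⟩)
        · push Not at h5
          refine Or.inl (Finset.mem_inter.2 ⟨hb, TE_St_rst.2 ⟨?_, h4, h5⟩⟩)
          intro hbA
          obtain ⟨hb1, a, ha, hab⟩ := TE_St_nb.1 hb
          have ha' := TE_St_rst.1 (hX ha)
          rcases hS.nbA a (TE_St_nb.2 ⟨ha'.1, b, hbA, hab.symm⟩) with h6 | ⟨i, hi, h6⟩
          · exact ha'.2.1 h6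
          · exact ha'.2.2 i hi h6
    have h4 := (Finset.card_le_card h3).trans (Finset.card_union_le _ _)
    have h5 := Finset.card_union_le Z ((range t).biUnion B)
    have h6 := TE_St_bu hS
    have h7 : (nb G X).card ≤ (nb G X ∩ rst t A Z B).card + (Z.card + t * m) := by omega
    have h8 : X.card ≤ k * (nb G X ∩ rst t A Z B).card + (k * Z.card + k * (t * m)) := by
      rw [← mul_add, ← mul_add]
      exact h2.trans (Nat.mul_le_mul_left k h7)
    have h9 := hS.cZ
    have h10 : k * (t * m) ≤ k * (h * m) := Nat.mul_le_mul_left k (Nat.mul_le_mul_right m ht)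
    rw [mul_assoc] at h1 h9 hXn
    omega

/-- Case 2. -/
theorem st_new (hS : St G k m t A Z B) {T : Finset (Fin v)} (hT : T ⊆ rst t A Z B) (hc : (G.induce (T : Set (Fin v))).Connected) (hm : T.card ≤ m)
    (hn : ∀ j < t, ∃ a ∈ B j, ∃ b ∈ T, G.Adj a b) : ∃ B', St G k m (t + 1) A Z B' := by
  obtain ⟨B', hB'⟩ : ∃ B' : ℕ → Finset (Fin v), ∀ i, B' i = if i = t then T else B i := ⟨_, fun i => rfl⟩
  have hBt : B' t = T := by rw [hB', if_pos rfl]
  have hBl : ∀ i < t, B' i = B i := by
    intro i hi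
    rw [hB', if_neg (by omega)]
  have hlt : ∀ i < t + 1, i = t ∨ i < t := fun i hi => by omega
  have hTB : ∀ i < t, Disjoint T (B i) := by
    intro i hi
    rw [Finset.disjoint_left]
    intro b hb hb'
    exact (TE_St_rst.1 (hT hb)).2.2 i hi hb'
  refine ⟨B', ⟨?_, ?_, ?_⟩, ?_, hS.dAZ, ?_, ?_, ?_, hS.cZ, hS.cA⟩
  · intro i hi
    rcases hlt i hi with rfl | h1
    · rw [hBt]
      exact hc
    · rw [hBl i h1]
      exact hS.minor.conn i h1
  · intro i hi j hj hij
    rcases hlt i hi with h1 | h1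
    · rcases hlt j hj with h2 | h2
      · exact absurd (h1.trans h2.symm) hij
      · rw [h1, hBt, hBl j h2]
        exact hTB j h2
    · rcases hlt j hj with h2 | h2
      · rw [h2, hBt, hBl i h1]
        exact (hTB i h1).symm
      · rw [hBl i h1, hBl j h2]
        exact hS.minor.disj i h1 j h2 hij
  · intro i hi j hj hij
    rcases hlt i hi with h1 | h1
    · rcases hlt j hj with h2 | h2
      · exact absurd (h1.trans h2.symm) hij
      · rw [h1, hBt, hBl j h2]
        obtain ⟨a, ha, b, hb, hab⟩ := hn j h2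
        exact ⟨b, hb, a, ha, hab.symm⟩
    · rcases hlt j hj with h2 | h2
      · rw [h2, hBt, hBl i h1]
        exact hn i h1
      · rw [hBl i h1, hBl j h2]
        exact hS.minor.adj i h1 j h2 hij
  · intro i hi
    rcases hlt i hi with h1 | h1
    · rw [h1, hBt]
      exact hm
    · rw [hBl i h1]
      exact hS.card i h1
  · intro i hi
    rcases hlt i hi with h1 | h1
    · rw [h1, hBt, Finset.disjoint_left]
      intro b hb hb'
      exact (TE_St_rst.1 (hT hb')).1 hb
    · rw [hBl i h1]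
      exact hS.dAB i h1
  · intro i hi
    rcases hlt i hi with h1 | h1
    · rw [h1, hBt, Finset.disjoint_left]
      intro b hb hb'
      exact (TE_St_rst.1 (hT hb')).2.1 hb
    · rw [hBl i h1]
      exact hS.dZB i h1
  · intro b hb
    rcases hS.nbA b hb with h1 | ⟨i, hi, h1⟩
    · exact Or.inl h1
    · refine Or.inr ⟨i, by omega, ?_⟩
      rw [hBl i hi]
      exact h1

end PPh
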