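import Pool.Agent.H94.TE.Ball
import Pool.Agent.H94.TE.Step

/-!
Row TE_Al (project MP_28250c_TE): bounded degree expanders have large clique minors (Plotkin, Rao, Smith).
PROOF. m := h (4 k (log2 v + 1) + 1). The empty state (A = Z = ∅, t = 0) is a state. Among all states with t ≤ h take one with maximal `A.card * (h + 1) + t` (bounded by `v (h+1) + h`; e.g. strong induction on the difference). If t = h: done. If t < h: `st_drop` shows that every branch set has a neighbour in
C = rst (otherwise the measure grows: t goes down by 1, A grows; h ≥ 1), `st_add` shows the expansion of C needed in `ball_path`; C is nonempty by `st_rst` (v > 0 since h ≥ 1 and hv); `tree_touch` with L = 4 k (log2 v + 1), x₀ any element of C, D = the chosen neighbours of the branch sets (card ≤ t ≤ h - 1): `T.card ≤ (h - 1) L + 1 ≤ m`;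
`st_new` gives a state with t + 1, contradiction to maximality.
-/

set_option autoImplicit false
open Finset

namespace PPh

variable {v : ℕ} {G : SimpleGraph (Fin v)}

private theorem TE_Al_step {k h : ℕ} (hk : 1 ≤ k) (hE : Exp k G) (hv : 12 * (k * (h * (h * (4 * k * (Nat.log 2 v + 1) + 1)))) ≤ v)
    {t : ℕ} {A Z : Finset (Fin v)} {B : ℕ → Finset (Fin v)} (hS : St G k (h * (4 * k * (Nat.log 2 v + 1) + 1)) t A Z B) (ht : t < h) :
    ∃ t' A' Z' B', t' ≤ h ∧ St G k (h * (4 * k * (Nat.log 2 v + 1) + 1)) t' A' Z' B' ∧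
      A.card * (h + 1) + t < Finset.card A' * (h + 1) + t' := by
  have hh : 1 ≤ h := by omega
  have hv0 : 0 < v := by
    have h1 : 1 ≤ k * (h * (h * (4 * k * (Nat.log 2 v + 1) + 1))) :=
      Nat.mul_pos (by omega) (Nat.mul_pos (by omega) (Nat.mul_pos (by omega) (by omega)))
    omega
  have hmeas : ∀ a a' t' : ℕ, a < a' → t ≤ t' + 1 → a * (h + 1) + t < a' * (h + 1) + t' := by
    intro a a' t' h1 h2
    have h3 : (a + 1) * (h + 1) ≤ a' * (h + 1) := Nat.mul_le_mul_right _ h1
    have h4 : (a + 1) * (h + 1) = a * (h + 1) + (h + 1) := by ring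
    omega
  by_cases h1 : ∃ j < t, ∀ a ∈ B j, ∀ b ∈ rst t A Z B, ¬ G.Adj a b
  · obtain ⟨j, hj, hn⟩ := h1
    obtain ⟨t0, rfl⟩ : ∃ t0, t = t0 + 1 := ⟨t - 1, by omega⟩
    obtain ⟨A', Z', B', hS', hc⟩ := st_drop hk hE hS (le_of_lt ht) hv hj hn
    exact ⟨t0, A', Z', B', by omega, hS', hmeas _ _ _ hc (le_refl _)⟩
  · push Not at h1
    by_cases h2 : ∃ X ⊆ rst t A Z B, X.Nonempty ∧ 2 * X.card ≤ v ∧ 2 * k * (nb G X ∩ rst t A Z B).card < X.card
    · obtain ⟨X, hX, hX0, hXv, hXn⟩ := h2
      obtain ⟨A', Z', hS', hc⟩ := st_add hk hE hS (le_of_lt ht) hv hX hX0 hXv hXn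
      exact ⟨t, A', Z', B, le_of_lt ht, hS', hmeas _ _ _ hc (by omega)⟩
    · push Not at h2
      have hcard := st_rst hk hE hS (le_of_lt ht) hv hv0
      have hne : (rst t A Z B).Nonempty := by
        rw [← Finset.card_pos]
        omega
      obtain ⟨x₀, hx₀⟩ := hne
      have hch : ∀ j : ℕ, ∃ b ∈ rst t A Z B, j < t → ∃ a ∈ B j, G.Adj a b := by
        intro j
        by_cases hj : j < t
        · obtain ⟨a, ha, b, hb, hab⟩ := h1 j hj
          exact ⟨b, hb, fun _ => ⟨a, ha, hab⟩⟩
        · exact ⟨x₀, hx₀, fun h => absurd h hj⟩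
      choose f hf hfa using hch
      have hD : (range t).image f ⊆ rst t A Z B := by
        intro b hb
        rw [Finset.mem_image] at hb
        obtain ⟨j, _, rfl⟩ := hb
        exact hf j
      obtain ⟨T, hT, _, hDT, hTc, hTconn⟩ := tree_touch (G := G) (L := 4 * k * (Nat.log 2 v + 1))
        (fun x hx y hy => ball_path hk h2 hx hy) hx₀ ((range t).image f) hD
      have hDc : ((range t).image f).card ≤ t := by
        have h3 := Finset.card_image_le (s := range t) (f := f)
        rwa [Finset.card_range] at h3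
      have hm : T.card ≤ h * (4 * k * (Nat.log 2 v + 1) + 1) := by
        have h4 : ((range t).image f).card * (4 * k * (Nat.log 2 v + 1)) ≤ h * (4 * k * (Nat.log 2 v + 1)) :=
          Nat.mul_le_mul_right _ (by omega)
        have h5 : h * (4 * k * (Nat.log 2 v + 1) + 1) = h * (4 * k * (Nat.log 2 v + 1)) + h := by ring
        rw [h5]
        exact le_trans hTc (Nat.add_le_add h4 hh)
      obtain ⟨B', hS'⟩ := st_new hS hT hTconn hm (fun j hj => by
        obtain ⟨a, ha, hab⟩ := hfa j hj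
        exact ⟨a, ha, f j, hDT (Finset.mem_image.2 ⟨j, Finset.mem_range.2 hj, rfl⟩), hab⟩)
      exact ⟨t + 1, A, Z, B', ht, hS', by omega⟩

private theorem TE_Al_run {k h : ℕ} (hk : 1 ≤ k) (hE : Exp k G) (hv : 12 * (k * (h * (h * (4 * k * (Nat.log 2 v + 1) + 1)))) ≤ v)
    (d : ℕ) : ∀ (t : ℕ) (A Z : Finset (Fin v)) (B : ℕ → Finset (Fin v)), t ≤ h →
      St G k (h * (4 * k * (Nat.log 2 v + 1) + 1)) t A Z B → v * (h + 1) + h ≤ A.card * (h + 1) + t + d →
      ∃ A' Z' B', St G k (h * (4 * k * (Nat.log 2 v + 1) + 1)) h A' Z' B' := by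
  have hbd : ∀ A : Finset (Fin v), A.card * (h + 1) ≤ v * (h + 1) := by
    intro A
    refine Nat.mul_le_mul_right _ ?_
    have h1 := Finset.card_le_univ A
    rwa [Fintype.card_fin] at h1
  induction d with
  | zero =>
    intro t A Z B ht hS hd
    by_cases h1 : t = h
    · subst h1
      exact ⟨A, Z, B, hS⟩
    · have h2 := hbd A
      exfalso
      omega
  | succ d ih =>
    intro t A Z B ht hS hd
    by_cases h1 : t = h
    · subst h1
      exact ⟨A, Z, B, hS⟩
    · obtain ⟨t', A', Z', B', ht', hS', hlt⟩ := TE_Al_step hk hE hv hS (lt_of_le_of_ne ht h1)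
      exact ih t' A' Z' B' ht' hS' (by omega)

theorem exp_minor {k h : ℕ} (hk : 1 ≤ k) (hE : Exp k G) (hv : 12 * (k * (h * (h * (4 * k * (Nat.log 2 v + 1) + 1)))) ≤ v) :
    ∃ B : ℕ → Finset (Fin v), KMinor G h B := by
  have h0 : St G k (h * (4 * k * (Nat.log 2 v + 1) + 1)) 0 (∅ : Finset (Fin v)) ∅ (fun _ => ∅) := by
    refine ⟨⟨?_, ?_, ?_⟩, ?_, ?_, ?_, ?_, ?_, ?_, ?_⟩
    · intro i hi
      exact absurd hi (Nat.not_lt_zero _)
    · intro i hi
      exact absurd hi (Nat.not_lt_zero _)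
    · intro i hi
      exact absurd hi (Nat.not_lt_zero _)
    · intro i hi
      exact absurd hi (Nat.not_lt_zero _)
    · exact Finset.disjoint_empty_left _
    · intro i hi
      exact absurd hi (Nat.not_lt_zero _)
    · intro i hi
      exact absurd hi (Nat.not_lt_zero _)
    · intro b hb
      classical
      obtain ⟨_, _, a, ha, _⟩ := Finset.mem_filter.1 hb
      exact absurd ha (Finset.notMem_empty a)
    · rw [Finset.card_empty, Nat.mul_zero]
    · rw [Finset.card_empty, Nat.mul_zero]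
      exact Nat.zero_le _
  obtain ⟨A, Z, B, hS⟩ := TE_Al_run hk hE hv (v * (h + 1) + h) 0 ∅ ∅ (fun _ => ∅) (Nat.zero_le _) h0 (by omega)
  exact ⟨B, hS.minor⟩

end PPh
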