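import Pool.Agent.H94.TE.Defs

/-!
Row TE_Ba (project MP_28250c_TE): short paths in a set with expansion.
PROOFS. `ball_path`: `bl 0 = {x}`, `bl (i + 1) = bl i ∪ (nb G (bl i) ∩ C)`. Every `bl i ⊆ C`, is connected (`G.induce`), and as long as `2 * (bl i).card ≤ v` we have `2 k (bl (i+1)).card ≥ (2 k + 1) (bl i).card`,
so `(bl i).card * (2k)^i ≥ (2k+1)^i` or `v < 2 * (bl i).card`; since `(1 + 1/(2k))^(2k) ≥ 2` (Bernoulli: `(2k+1)^(2k) ≥ 2 (2k)^(2k)`) for `i = 2k(log2 v + 1)` we get `v < 2 * (bl i).card` (`Nat.lt_pow_succ_log_self`).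
For every `z ∈ bl i` there is a connected set `P ⊆ C` with `x, z ∈ P`, `P.card ≤ i + 1` (induction on i: add the vertex z to the set of a neighbour in `bl i`: `G.induce (insert z P)` connected; see `SimpleGraph.induce_union_connected`,
`SimpleGraph.induce_pair_connected_of_adj`, or walks with `Walk.connected_induce_support`). The balls of `x` and `y` intersect (cards > v/2 each) in some z; take the union of the two sets. `tree_touch`: Finset induction on D, union with the path from `x₀` (both contain `x₀`).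
-/

set_option autoImplicit false
open Finset

namespace PPh

variable {v : ℕ} {G : SimpleGraph (Fin v)}

private theorem Ba_one (x : Fin v) : (G.induce (({x} : Finset (Fin v)) : Set (Fin v))).Connected := by
  have h : (({x} : Finset (Fin v)) : Set (Fin v)) = {x} := Finset.coe_singleton x
  rw [h]
  have : Nonempty ({x} : Set (Fin v)) := ⟨⟨x, rfl⟩⟩
  refine ⟨fun a b => ?_⟩
  have hab : a = b := Subtype.ext (by rw [Set.mem_singleton_iff.1 a.2, Set.mem_singleton_iff.1 b.2])
  rw [hab]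

private theorem Ba_union {P Q : Finset (Fin v)} (hP : (G.induce (P : Set (Fin v))).Connected) (hQ : (G.induce (Q : Set (Fin v))).Connected)
    {z : Fin v} (h1 : z ∈ P) (h2 : z ∈ Q) : (G.induce ((P ∪ Q : Finset (Fin v)) : Set (Fin v))).Connected := by
  rw [Finset.coe_union]
  exact SimpleGraph.induce_union_connected hP.preconnected hQ.preconnected ⟨z, Finset.mem_coe.2 h1, Finset.mem_coe.2 h2⟩

private theorem Ba_card {P Q : Finset (Fin v)} {z : Fin v} (h1 : z ∈ P) (h2 : z ∈ Q) : (P ∪ Q).card + 1 ≤ P.card + Q.card := by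
  have h3 := Finset.card_union_add_card_inter P Q
  have h4 : 1 ≤ (P ∩ Q).card := Finset.card_pos.2 ⟨z, Finset.mem_inter.2 ⟨h1, h2⟩⟩
  omega

private noncomputable def Ba_bl (G : SimpleGraph (Fin v)) (C : Finset (Fin v)) (x : Fin v) : ℕ → Finset (Fin v)
  | 0 => {x}
  | i + 1 => Ba_bl G C x i ∪ (nb G (Ba_bl G C x i) ∩ C)

private theorem Ba_sub {C : Finset (Fin v)} {x : Fin v} (hx : x ∈ C) : ∀ i, Ba_bl G C x i ⊆ C := by
  intro i
  induction i with
  | zero =>
    intro y hy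
    have : y = x := Finset.mem_singleton.1 hy
    rw [this]
    exact hx
  | succ i ih => exact Finset.union_subset ih Finset.inter_subset_right

private theorem Ba_mem {C : Finset (Fin v)} {x : Fin v} : ∀ i, x ∈ Ba_bl G C x i := by
  intro i
  induction i with
  | zero => exact Finset.mem_singleton_self x
  | succ i ih => exact Finset.mem_union_left _ ih

private theorem Ba_path {C : Finset (Fin v)} {x : Fin v} (hx : x ∈ C) : ∀ i, ∀ z ∈ Ba_bl G C x i,
    ∃ P ⊆ C, x ∈ P ∧ z ∈ P ∧ P.card ≤ i + 1 ∧ (G.induce (P : Set (Fin v))).Connected := by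
  intro i
  induction i with
  | zero =>
    intro z hz
    have hz' : z = x := Finset.mem_singleton.1 hz
    subst hz'
    exact ⟨{z}, Finset.singleton_subset_iff.2 hx, Finset.mem_singleton_self _, Finset.mem_singleton_self _, by simp, Ba_one z⟩
  | succ i ih =>
    intro z hz
    rcases Finset.mem_union.1 hz with hz | hz
    · obtain ⟨P, h1, h2, h3, h4, h5⟩ := ih z hz
      exact ⟨P, h1, h2, h3, by omega, h5⟩
    · obtain ⟨hz1, hz2⟩ := Finset.mem_inter.1 hz
      simp only [nb, Finset.mem_filter] at hz1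
      obtain ⟨-, -, a, ha, haz⟩ := hz1
      obtain ⟨P, h1, h2, h3, h4, h5⟩ := ih a ha
      have h6 : (G.induce ((({a, z} : Finset (Fin v))) : Set (Fin v))).Connected := by
        have h7 : (({a, z} : Finset (Fin v)) : Set (Fin v)) = {a, z} := by simp
        rw [h7]
        exact SimpleGraph.induce_pair_connected_of_adj haz
      refine ⟨P ∪ {a, z}, ?_, Finset.mem_union_left _ h2, Finset.mem_union_right _ (by simp), ?_, Ba_union h5 h6 h3 (by simp)⟩
      · apply Finset.union_subset h1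
        intro b hb
        rcases Finset.mem_insert.1 hb with hb | hb
        · rw [hb]
          exact h1 h3
        · rw [Finset.mem_singleton.1 hb]
          exact hz2
      · have h8 := Ba_card (P := P) (Q := {a, z}) h3 (by simp)
        have h9 : ({a, z} : Finset (Fin v)).card ≤ 2 := Finset.card_le_two
        omega

private theorem Ba_grow {k : ℕ} {C : Finset (Fin v)}
    (hC : ∀ X ⊆ C, X.Nonempty → 2 * X.card ≤ v → X.card ≤ 2 * k * (nb G X ∩ C).card) {x : Fin v} (hx : x ∈ C) (i : ℕ)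
    (h : 2 * (Ba_bl G C x i).card ≤ v) : (2 * k + 1) * (Ba_bl G C x i).card ≤ 2 * k * (Ba_bl G C x (i + 1)).card := by
  have h1 := hC _ (Ba_sub (G := G) hx i) ⟨x, Ba_mem i⟩ h
  have h2 : (Ba_bl G C x (i + 1)).card = (Ba_bl G C x i).card + (nb G (Ba_bl G C x i) ∩ C).card := by
    show (Ba_bl G C x i ∪ (nb G (Ba_bl G C x i) ∩ C)).card = _
    apply Finset.card_union_of_disjoint
    rw [Finset.disjoint_left]
    intro a ha hb
    have h3 := (Finset.mem_inter.1 hb).1
    simp only [nb, Finset.mem_filter] at h3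
    exact h3.2.1 ha
  rw [h2]
  nlinarith

private theorem Ba_exp {k : ℕ} {C : Finset (Fin v)}
    (hC : ∀ X ⊆ C, X.Nonempty → 2 * X.card ≤ v → X.card ≤ 2 * k * (nb G X ∩ C).card) {x : Fin v} (hx : x ∈ C) (i : ℕ) :
    v < 2 * (Ba_bl G C x i).card ∨ (2 * k + 1) ^ i ≤ (Ba_bl G C x i).card * (2 * k) ^ i := by
  induction i with
  | zero => right; simp [Ba_bl]
  | succ i ih =>
    by_cases h : v < 2 * (Ba_bl G C x i).card
    · left
      have h1 : (Ba_bl G C x i).card ≤ (Ba_bl G C x (i + 1)).card := Finset.card_le_card Finset.subset_union_left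
      omega
    · right
      have h1 := ih.resolve_left h
      have h2 := Ba_grow hC hx i (by omega)
      calc (2 * k + 1) ^ (i + 1) = (2 * k + 1) ^ i * (2 * k + 1) := pow_succ _ _
        _ ≤ (Ba_bl G C x i).card * (2 * k) ^ i * (2 * k + 1) := Nat.mul_le_mul_right _ h1
        _ = ((2 * k + 1) * (Ba_bl G C x i).card) * (2 * k) ^ i := by ring
        _ ≤ (2 * k * (Ba_bl G C x (i + 1)).card) * (2 * k) ^ i := Nat.mul_le_mul_right _ h2
        _ = (Ba_bl G C x (i + 1)).card * (2 * k) ^ (i + 1) := by ring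

private theorem Ba_bern (m : ℕ) (hm : 1 ≤ m) : 2 * m ^ m ≤ (m + 1) ^ m := by
  have h0 : (0 : ℝ) < m := by exact_mod_cast hm
  have h1 : (1 : ℝ) + (m : ℝ) * (1 / m) ≤ (1 + 1 / (m : ℝ)) ^ m :=
    one_add_mul_le_pow (by have : (0 : ℝ) ≤ 1 / m := by positivity
                           linarith) m
  have h2 : (1 : ℝ) + (m : ℝ) * (1 / m) = 2 := by field_simp; norm_num
  rw [h2] at h1
  have h3 : (1 + 1 / (m : ℝ)) = (m + 1) / m := by field_simp
  rw [h3, div_pow, le_div_iff₀ (by positivity)] at h1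
  exact_mod_cast h1

private theorem Ba_half {k : ℕ} (hk : 1 ≤ k) {C : Finset (Fin v)}
    (hC : ∀ X ⊆ C, X.Nonempty → 2 * X.card ≤ v → X.card ≤ 2 * k * (nb G X ∩ C).card) {x : Fin v} (hx : x ∈ C) :
    v < 2 * (Ba_bl G C x (2 * k * (Nat.log 2 v + 1))).card := by
  rcases Ba_exp hC hx (2 * k * (Nat.log 2 v + 1)) with h | h
  · exact h
  · have h1 := Ba_bern (2 * k) (by omega)
    have h2 : 2 ^ (Nat.log 2 v + 1) * (2 * k) ^ (2 * k * (Nat.log 2 v + 1)) ≤ (2 * k + 1) ^ (2 * k * (Nat.log 2 v + 1)) := by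
      rw [pow_mul (2 * k) (2 * k) (Nat.log 2 v + 1), pow_mul (2 * k + 1) (2 * k) (Nat.log 2 v + 1), ← mul_pow]
      exact Nat.pow_le_pow_left h1 _
    have h3 : 2 ^ (Nat.log 2 v + 1) * (2 * k) ^ (2 * k * (Nat.log 2 v + 1)) ≤
        (Ba_bl G C x (2 * k * (Nat.log 2 v + 1))).card * (2 * k) ^ (2 * k * (Nat.log 2 v + 1)) := h2.trans h
    have h4 : 2 ^ (Nat.log 2 v + 1) ≤ (Ba_bl G C x (2 * k * (Nat.log 2 v + 1))).card :=
      Nat.le_of_mul_le_mul_right h3 (by positivity)
    have h5 : v < 2 ^ (Nat.log 2 v + 1) := Nat.lt_pow_succ_log_self (by norm_num) v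
    omega

theorem ball_path {k : ℕ} (hk : 1 ≤ k) {C : Finset (Fin v)}
    (hC : ∀ X ⊆ C, X.Nonempty → 2 * X.card ≤ v → X.card ≤ 2 * k * (nb G X ∩ C).card) {x y : Fin v} (hx : x ∈ C) (hy : y ∈ C) :
    ∃ P ⊆ C, x ∈ P ∧ y ∈ P ∧ P.card ≤ 4 * k * (Nat.log 2 v + 1) + 1 ∧ (G.induce (P : Set (Fin v))).Connected := by
  classical
  have hx2 := Ba_half hk hC hx
  have hy2 := Ba_half hk hC hy
  have hint : ∃ z, z ∈ Ba_bl G C x (2 * k * (Nat.log 2 v + 1)) ∧ z ∈ Ba_bl G C y (2 * k * (Nat.log 2 v + 1)) := by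
    by_contra hcon
    push Not at hcon
    have hd : Disjoint (Ba_bl G C x (2 * k * (Nat.log 2 v + 1))) (Ba_bl G C y (2 * k * (Nat.log 2 v + 1))) :=
      Finset.disjoint_left.2 fun a ha => hcon a ha
    have h1 := Finset.card_union_of_disjoint hd
    have h2 : (Ba_bl G C x (2 * k * (Nat.log 2 v + 1)) ∪ Ba_bl G C y (2 * k * (Nat.log 2 v + 1))).card ≤ v := by
      have h3 := Finset.card_le_univ (Ba_bl G C x (2 * k * (Nat.log 2 v + 1)) ∪ Ba_bl G C y (2 * k * (Nat.log 2 v + 1)))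
      rwa [Fintype.card_fin] at h3
    omega
  obtain ⟨z, hz1, hz2⟩ := hint
  obtain ⟨P, a1, a2, a3, a4, a5⟩ := Ba_path hx _ z hz1
  obtain ⟨Q, b1, b2, b3, b4, b5⟩ := Ba_path hy _ z hz2
  refine ⟨P ∪ Q, Finset.union_subset a1 b1, Finset.mem_union_left _ a2, Finset.mem_union_right _ b2, ?_, Ba_union a5 b5 a3 b3⟩
  have h1 := Ba_card a3 b3
  have h2 : 4 * k * (Nat.log 2 v + 1) = 2 * k * (Nat.log 2 v + 1) + 2 * k * (Nat.log 2 v + 1) := by ring
  omega

theorem tree_touch {C : Finset (Fin v)} {L : ℕ}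
    (hP : ∀ x ∈ C, ∀ y ∈ C, ∃ P ⊆ C, x ∈ P ∧ y ∈ P ∧ P.card ≤ L + 1 ∧ (G.induce (P : Set (Fin v))).Connected)
    {x₀ : Fin v} (hx₀ : x₀ ∈ C) (D : Finset (Fin v)) (hD : D ⊆ C) :
    ∃ T ⊆ C, x₀ ∈ T ∧ D ⊆ T ∧ T.card ≤ D.card * L + 1 ∧ (G.induce (T : Set (Fin v))).Connected := by
  classical
  induction D using Finset.induction_on with
  | empty =>
    exact ⟨{x₀}, Finset.singleton_subset_iff.2 hx₀, Finset.mem_singleton_self _, Finset.empty_subset _, by simp, Ba_one x₀⟩
  | insert a D ha ih =>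
    obtain ⟨T, h1, h2, h3, h4, h5⟩ := ih fun b hb => hD (Finset.mem_insert_of_mem hb)
    obtain ⟨P, a1, a2, a3, a4, a5⟩ := hP x₀ hx₀ a (hD (Finset.mem_insert_self a D))
    refine ⟨T ∪ P, Finset.union_subset h1 a1, Finset.mem_union_left _ h2, ?_, ?_, Ba_union h5 a5 h2 a2⟩
    · intro b hb
      rcases Finset.mem_insert.1 hb with hb | hb
      · rw [hb]
        exact Finset.mem_union_right _ a3
      · exact Finset.mem_union_left _ (h3 hb)
    · have h6 := Ba_card h2 a2
      rw [Finset.card_insert_of_notMem ha]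
      have h7 : (D.card + 1) * L = D.card * L + L := by ring
      omega

end PPh
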