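import Pool.Agent.H94.TM.Defs

/-!
helper94 (project MP_28250c_TE, Tseitin formulas of expanders for AC0[p]-Frege): definitions.
-/

set_option autoImplicit false
open Finset

namespace PPh

open Classical in
/-- The outer neighbours of a set of vertices. -/
noncomputable def nb {v : ℕ} (G : SimpleGraph (Fin v)) (A : Finset (Fin v)) : Finset (Fin v) :=
  univ.filter fun b => b ∉ A ∧ ∃ a ∈ A, G.Adj a b

/-- Vertex expansion at least `1 / k`: every set of at most half of the vertices has at least `1 / k` times as many outer neighbours as elements. -/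
def Exp (k : ℕ) {v : ℕ} (G : SimpleGraph (Fin v)) : Prop :=
  ∀ A : Finset (Fin v), 2 * A.card ≤ v → A.card ≤ k * (nb G A).card

/-- The complete graph on `h` vertices is a minor of `G`, with branch sets `B i`. -/
structure KMinor {v : ℕ} (G : SimpleGraph (Fin v)) (h : ℕ) (B : ℕ → Finset (Fin v)) : Prop where
  conn : ∀ i < h, (G.induce (B i : Set (Fin v))).Connected
  disj : ∀ i < h, ∀ j < h, i ≠ j → Disjoint (B i) (B j)
  adj : ∀ i < h, ∀ j < h, i ≠ j → ∃ a ∈ B i, ∃ b ∈ B j, G.Adj a b

/-- A state of the construction of a minor: `A` has outer neighbours only in `Z` and in the branch sets, `Z` is small compared to `A`, and there are `t`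
branch sets with at most `m` elements. -/
structure St {v : ℕ} (G : SimpleGraph (Fin v)) (k m t : ℕ) (A Z : Finset (Fin v)) (B : ℕ → Finset (Fin v)) : Prop where
  minor : KMinor G t B
  card : ∀ i < t, (B i).card ≤ m
  dAZ : Disjoint A Z
  dAB : ∀ i < t, Disjoint A (B i)
  dZB : ∀ i < t, Disjoint Z (B i)
  nbA : ∀ b ∈ nb G A, b ∈ Z ∨ ∃ i < t, b ∈ B i
  cZ : 2 * k * Z.card ≤ A.card
  cA : 2 * A.card ≤ v

/-- The rest. -/
def rst {v : ℕ} (t : ℕ) (A Z : Finset (Fin v)) (B : ℕ → Finset (Fin v)) : Finset (Fin v) :=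
  univ \ (A ∪ Z ∪ (range t).biUnion B)

end PPh
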