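import Pool.Agent.H94.TE.Main
import Pool.Agent.H94.TM.Final

/-!
helper94 (project MP_28250c_TE): Tseitin formulas of bounded degree expanders.
-/

set_option autoImplicit false

namespace PPh

theorem mainTE : StatementTE := te_of mainTM

end PPh
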